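import Mathlib

open Filter Topology
open scoped ENNReal

namespace Pool.Agent.Results.MP_106cb8_an.Tree

section
variable {X : Type} [AddCommGroup X] [Module ℝ X]

/-- convex, left-continuous modular. -/
def IsModular (ρ : X → ℝ≥0∞) : Prop :=
  (∀ u, ρ u = 0 ↔ u = 0) ∧ (∀ (a : ℝ) u, |a| = 1 → ρ (a • u) = ρ u) ∧
  (∀ (a : ℝ) u v, 0 ≤ a → a ≤ 1 →
    ρ (a • u + (1 - a) • v) ≤ ENNReal.ofReal a * ρ u + ENNReal.ofReal (1 - a) * ρ v) ∧
  ∀ u (l : ℝ), 0 < l → Tendsto (fun t : ℝ => ρ (t • u)) (𝓝[<] l) (𝓝 (ρ (l • u)))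

/-- `C` is closed under modular convergence. -/
def RClosed (ρ : X → ℝ≥0∞) (C : Set X) : Prop :=
  ∀ (x : ℕ → X) (y : X), (∀ j, x j ∈ C) → Tendsto (fun j => ρ (x j - y)) atTop (𝓝 0) → y ∈ C

end

abbrev N := ℕ × List ℕ
abbrev X := Option N →₀ ℝ

open Classical in
noncomputable def co : ℕ ⊕ N → Option N → ℝ
  | .inl _, none => 1
  | .inl K, some p => if K ≤ p.1 then 1 / (p.1 + 1) else 0
  | .inr p, i => if i = some p then 1 else 0

noncomputable def c : ℕ ⊕ N → ℝ
  | .inl K => 1 / (K + 1)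
  | .inr _ => 0

noncomputable def w : ℕ ⊕ N → ℝ
  | .inl K => 1 / (K + 1)
  | .inr p => 1 / (p.1 + p.2.sum + 1)

noncomputable def φ (j : ℕ ⊕ N) : X →ₗ[ℝ] ℝ := Finsupp.linearCombination ℝ (co j)

noncomputable def ψ (j : ℕ ⊕ N) (v : X) : ℝ := w j * max (|φ j v| - c j) 0

noncomputable def r (v : X) : ℝ := ⨆ j, ψ j v

lemma inv_le (a : ℕ) : (0 : ℝ) < 1 / (a + 1) ∧ (1 : ℝ) / (a + 1) ≤ 1 :=
  ⟨by positivity, by rw [div_le_one (by positivity)]; simp⟩

lemma w_pos (j : ℕ ⊕ N) : 0 < w j ∧ w j ≤ 1 := by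
  rcases j with K | p
  · exact inv_le K
  · have := inv_le (p.1 + p.2.sum); push_cast [← Nat.cast_list_sum] at this; simpa [w] using this

lemma c_nonneg (j : ℕ ⊕ N) : 0 ≤ c j := by
  rcases j with K | p
  · exact (inv_le K).1.le
  · exact le_rfl

lemma co_le (j : ℕ ⊕ N) (i : Option N) : |co j i| ≤ 1 := by
  rcases j with K | p
  · rcases i with _ | q
    · simp [co]
    · simp only [co]; split_ifs
      · rw [abs_of_pos (inv_le _).1]; exact (inv_le _).2
      · simp
  · simp only [co]; split_ifs <;> simp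

lemma ψ_nonneg (j : ℕ ⊕ N) (v : X) : 0 ≤ ψ j v := mul_nonneg (w_pos j).1.le (le_max_right _ _)

lemma ψ_le (j : ℕ ⊕ N) (v : X) {b : ℝ} (h : |φ j v| ≤ b) : ψ j v ≤ w j * b :=
  mul_le_mul_of_nonneg_left
    (max_le (by linarith [c_nonneg j]) ((abs_nonneg _).trans h)) (w_pos j).1.le

lemma bdd (v : X) : BddAbove (Set.range fun j => ψ j v) := by
  refine ⟨∑ i ∈ v.support, |v i|, ?_⟩
  rintro _ ⟨j, rfl⟩
  have h : |φ j v| ≤ ∑ i ∈ v.support, |v i| := by
    rw [φ, Finsupp.linearCombination_apply, Finsupp.sum]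
    refine (Finset.abs_sum_le_sum_abs _ _).trans (Finset.sum_le_sum fun i _ => ?_)
    rw [smul_eq_mul, abs_mul]
    exact mul_le_of_le_one_right (abs_nonneg _) (co_le j i)
  exact (ψ_le j v h).trans (mul_le_of_le_one_left ((abs_nonneg _).trans h) (w_pos j).2)

lemma le_r (j : ℕ ⊕ N) (v : X) : ψ j v ≤ r v := le_ciSup (bdd v) j

lemma r_nonneg (v : X) : 0 ≤ r v := (ψ_nonneg (.inl 0) v).trans (le_r _ v)

lemma r_conv (a b : ℝ) (u v : X) (ha : 0 ≤ a) (hb : 0 ≤ b) (hab : a + b = 1) :
    r (a • u + b • v) ≤ a * r u + b * r v := by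
  refine ciSup_le fun j => le_trans ?_ (add_le_add (mul_le_mul_of_nonneg_left (le_r j u) ha)
    (mul_le_mul_of_nonneg_left (le_r j v) hb))
  have h1 : |φ j (a • u + b • v)| ≤ a * |φ j u| + b * |φ j v| := by
    rw [map_add, map_smul, map_smul, smul_eq_mul, smul_eq_mul]
    refine (abs_add_le _ _).trans ?_
    rw [abs_mul, abs_mul, abs_of_nonneg ha, abs_of_nonneg hb]
  have h2 := mul_le_mul_of_nonneg_left (le_max_left (|φ j u| - c j) 0) ha
  have h3 := mul_le_mul_of_nonneg_left (le_max_left (|φ j v| - c j) 0) hb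
  have h4 := mul_nonneg ha (le_max_right (|φ j u| - c j) 0)
  have h5 := mul_nonneg hb (le_max_right (|φ j v| - c j) 0)
  have h6 : c j = a * c j + b * c j := by rw [← add_mul, hab, one_mul]
  have h7 : max (|φ j (a • u + b • v)| - c j) 0 ≤
      a * max (|φ j u| - c j) 0 + b * max (|φ j v| - c j) 0 :=
    max_le (by nlinarith) (by linarith)
  have := mul_le_mul_of_nonneg_left h7 (w_pos j).1.le
  unfold ψ
  linarith

lemma φ_inr (p : N) (v : X) : φ (.inr p) v = v (some p) := by
  rw [φ, Finsupp.linearCombination_apply, Finsupp.sum, Finset.sum_eq_single (some p)]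
  · simp [co]
  · intro i _ hi; simp [co, hi]
  · intro h; simp [Finsupp.notMem_support_iff.1 h]

lemma r_zero (v : X) (h : r v ≤ 0) : v = 0 := by
  have h0 : ∀ j, |φ j v| ≤ c j := fun j => by
    have h1 := (le_r j v).trans h
    have h2 := (w_pos j).1
    have h3 := le_max_left (|φ j v| - c j) 0
    unfold ψ at h1
    nlinarith
  have h1 : ∀ p, v (some p) = 0 := fun p => by
    have := h0 (.inr p)
    rwa [φ_inr, c, abs_nonpos_iff] at this
  have h2 : v = Finsupp.single none (v none) := by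
    ext i; rcases i with _ | p <;> simp [h1]
  have h3 : v none = 0 := by
    by_contra hne
    obtain ⟨K, hK⟩ := exists_nat_one_div_lt (abs_pos.2 hne)
    have := h0 (.inl K)
    rw [h2] at this
    simp only [φ, Finsupp.linearCombination_single, co, c, smul_eq_mul, mul_one] at this
    linarith
  rw [h2, h3, Finsupp.single_zero]

noncomputable def P (k : ℕ) : List ℕ → X
  | [] => Finsupp.single none 1
  | l :: s => P k s - Finsupp.single (some (k, l :: s)) 1

lemma r_step (k l : ℕ) (s : List ℕ) : r (P k (l :: s) - P k s) ≤ 1 / (l + 1) := by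
  have e : P k (l :: s) - P k s = -Finsupp.single (some (k, l :: s)) 1 := by simp [P]
  rw [e]
  refine ciSup_le fun j => ?_
  rcases j with K | p
  · refine le_trans (le_of_eq ?_) (inv_le l).1.le
    unfold ψ
    rw [max_eq_right, mul_zero]
    simp only [map_neg, abs_neg, φ, Finsupp.linearCombination_single, co, c, smul_eq_mul, one_mul]
    split_ifs with h
    · rw [abs_of_pos (inv_le _).1, sub_nonpos]
      exact one_div_le_one_div_of_le (by positivity) (by exact_mod_cast Nat.succ_le_succ h)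
    · simpa using (inv_le K).1.le
  · by_cases h : p = (k, l :: s)
    · refine (ψ_le _ _ (b := 1) (by simp [φ_inr, h])).trans ?_
      rw [mul_one, h]
      refine one_div_le_one_div_of_le (by positivity) ?_
      have : l + 1 ≤ k + (l :: s).sum + 1 := by simp; omega
      exact_mod_cast this
    · refine (ψ_le _ _ (b := 0) (by simp [φ_inr, h])).trans ?_
      rw [mul_zero]; exact (inv_le l).1.le

lemma P_coord (k : ℕ) (s : List ℕ) (p : N) :
    P k s (some p) = if p.1 = k ∧ p.2 ≠ [] ∧ p.2 <:+ s then -1 else 0 := by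
  induction s with
  | nil => simp [P]
  | cons l s ih =>
    obtain ⟨a, t⟩ := p
    simp only [P, Finsupp.sub_apply, ih, Finsupp.single_apply, List.suffix_cons_iff,
      Option.some.injEq, Prod.mk.injEq]
    by_cases h1 : a = k
    · by_cases h2 : t = l :: s
      · have : ¬ (l :: s) <:+ s := fun h => by simpa using h.length_le
        simp [h1, h2, this]
      · simp [h1, h2, Ne.symm h2]
    · simp [h1, Ne.symm h1]

lemma P_phi (k K : ℕ) (s : List ℕ) :
    φ (.inl K) (P k s) = 1 - s.length * co (.inl K) (some (k, [])) := by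
  induction s with
  | nil => simp [P, φ, co]
  | cons l s ih =>
    rw [P, map_sub, ih]
    simp only [φ, Finsupp.linearCombination_single, co, List.length_cons, smul_eq_mul]
    push_cast; ring

lemma r_leaf (k : ℕ) (s : List ℕ) (hs : s.length = k + 1) : r (P k s) ≤ 1 / (k + 1) := by
  refine ciSup_le fun j => ?_
  rcases j with K | p
  · by_cases h : K ≤ k
    · refine (ψ_le _ _ (b := 0) ?_).trans (by rw [mul_zero]; exact (inv_le k).1.le)
      rw [P_phi, hs]
      simp only [co, h, if_true]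
      push_cast
      rw [mul_one_div_cancel (by positivity)]; simp
    · refine (ψ_le _ _ (b := 1) (by rw [P_phi]; simp [co, h])).trans ?_
      rw [mul_one]
      exact one_div_le_one_div_of_le (by positivity) (by exact_mod_cast (by omega))
  · by_cases h : p.1 = k
    · refine (ψ_le _ _ (b := 1) (by rw [φ_inr, P_coord]; split_ifs <;> simp)).trans ?_
      rw [mul_one]
      refine one_div_le_one_div_of_le (by positivity) ?_
      have : k + 1 ≤ p.1 + p.2.sum + 1 := by omega
      exact_mod_cast this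
    · refine (ψ_le _ _ (b := 0) (by rw [φ_inr, P_coord]; simp [h])).trans ?_
      rw [mul_zero]; exact (inv_le k).1.le

lemma conv (x : ℕ → X) (h : ∀ j, r (x j) ≤ 1 / (j + 1)) :
    Tendsto (fun j => ENNReal.ofReal (r (x j))) atTop (𝓝 0) := by
  rw [← ENNReal.ofReal_zero]
  exact ENNReal.tendsto_ofReal
    (squeeze_zero (fun _ => r_nonneg _) h tendsto_one_div_add_atTop_nhds_zero_nat)

theorem result : ∃ (Y : Type) (_ : AddCommGroup Y) (_ : Module ℝ Y) (ρ : Y → ℝ≥0∞),
    IsModular ρ ∧ (∀ v, ρ v < ⊤) ∧ RClosed ρ {0} ∧ ∃ x : Y, x ≠ 0 ∧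
      ∀ U V : Set Y, RClosed ρ Uᶜ → RClosed ρ Vᶜ → x ∈ U → 0 ∈ V → (U ∩ V).Nonempty := by
  have hz : ∀ u : X, ENNReal.ofReal (r u) = 0 ↔ u = 0 := fun u => by
    refine ⟨fun h => r_zero u (ENNReal.ofReal_eq_zero.1 h), ?_⟩
    rintro rfl
    exact ENNReal.ofReal_eq_zero.2 (ciSup_le fun j => (ψ_le j 0 (b := 0) (by simp)).trans (by simp))
  refine ⟨X, inferInstance, inferInstance, fun v => ENNReal.ofReal (r v),
    ⟨hz, fun a u ha => ?_, fun a u v h0 h1 => ?_, fun u l _ => ?_⟩,
    fun _ => ENNReal.ofReal_lt_top, fun x y hx hy => ?_, P 0 [], by simp [P],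
    fun U V hU hV hx h0 => ?_⟩
  · simp only [r, ψ, map_smul, smul_eq_mul, abs_mul, ha, one_mul]
  · rw [← ENNReal.ofReal_mul h0, ← ENNReal.ofReal_mul (by linarith), ← ENNReal.ofReal_add
      (mul_nonneg h0 (r_nonneg _)) (mul_nonneg (by linarith) (r_nonneg _))]
    exact ENNReal.ofReal_le_ofReal (r_conv a (1 - a) u v h0 (by linarith) (by ring))
  · have hc : ConvexOn ℝ Set.univ fun t : ℝ => r (t • u) :=
      ⟨convex_univ, fun s _ t _ a b ha hb hab => by
        have := r_conv a b (s • u) (t • u) ha hb hab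
        rwa [smul_smul, smul_smul, ← add_smul] at this⟩
    have := (hc.continuousOn isOpen_univ).continuousAt (x := l) univ_mem
    exact ENNReal.tendsto_ofReal (this.tendsto.mono_left nhdsWithin_le_nhds)
  · simp only [Set.mem_singleton_iff] at hx ⊢
    simp only [hx, zero_sub] at hy
    exact neg_eq_zero.1 ((hz _).1 (tendsto_const_nhds_iff.1 hy))
  · have key : ∀ k n, ∃ s : List ℕ, s.length = n ∧ P k s ∈ U := by
      intro k n
      induction n with
      | zero => exact ⟨[], rfl, hx⟩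
      | succ n ih =>
        obtain ⟨s, h1, h2⟩ := ih
        by_contra hc
        push Not at hc
        exact hU (fun l => P k (l :: s)) (P k s) (fun l => hc _ (by simp [h1]))
          (conv _ fun l => r_step k l s) h2
    choose s h1 h2 using fun k => key k (k + 1)
    by_contra hc
    exact hV (fun k => P k (s k)) 0 (fun k hk => hc ⟨_, h2 k, hk⟩)
      (conv _ fun k => by rw [sub_zero]; exact r_leaf k _ (h1 k)) h0

end Pool.Agent.Results.MP_106cb8_an.Tree
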